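import Mathlib

/-!
# Affine algebraic groups over a field in the classical language
-/

set_option autoImplicit false

namespace Pool.Agent.Q173.GZ

/-- Pointwise operations on functions (the instance of Mathlib, under a short name). -/
@[reducible, instance 5000] def fnComm (k X : Type) [Field k] : CommSemiring (X → k) :=
  Pi.commSemiring

/-- Pointwise operations on functions (the instance of Mathlib, under a short name). -/
@[reducible, instance 5000] def fnSemi (k X : Type) [Field k] : Semiring (X → k) := Pi.semiring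

/-- The algebra of functions (the instance of Mathlib, under a short name). -/
@[reducible, instance 5000] def fnAlg (k X : Type) [Field k] : Algebra k (X → k) :=
  Pi.algebra _ _

/-- Addition of functions (the instance of Mathlib, under a short name). -/
@[reducible, instance 5000] def fnAdd (k X : Type) [Field k] : AddCommMonoid (X → k) :=
  Pi.addCommMonoid

/-- The vector space of functions (the instance of Mathlib, under a short name). -/
@[reducible, instance 5000] def fnModule (k X : Type) [Field k] : Module k (X → k) :=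
  Pi.Function.module _ _ _

/-- Membership in a subalgebra of functions (the instance of Mathlib, under a short name). -/
@[reducible, instance 5000] def fnMem (k X : Type) [Field k] :
    Membership (X → k) (Subalgebra k (X → k)) := SetLike.instMembership

/-- The type of the elements of a subgroup. -/
@[reducible] def El {G : Type} [Group G] (S : Subgroup G) : Type := {g : G // g ∈ S}

/-- A subgroup is a group (the instance of Mathlib, under a short name). -/
@[reducible, instance 5000] def elGroup {G : Type} [Group G] (S : Subgroup G) : Group (El S) :=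
  S.toGroup

section functions

variable {k : Type} [Field k] {X Y Z W : Type}

/-- Composition of functions with a map `f : X → Y`. -/
def pull (f : X → Y) : (Y → k) →ₐ[k] (X → k) where
  toFun F := F ∘ f
  map_one' := rfl
  map_mul' _ _ := rfl
  map_zero' := rfl
  map_add' _ _ := rfl
  commutes' _ := rfl

/-- Given the regular functions on `X` and on `Y`, the regular functions on `X × Y`: the functions
`∑ a_i(x) b_i(y)`. -/
def box (O₁ : Subalgebra k (X → k)) (O₂ : Subalgebra k (Y → k)) : Subalgebra k (X × Y → k) :=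
  O₁.map (pull Prod.fst) ⊔ O₂.map (pull Prod.snd)

/-- The map `p` is a morphism for the given algebras of regular functions. -/
def Reg (OZ : Subalgebra k (Z → k)) (OX : Subalgebra k (X → k)) (p : Z → X) : Prop :=
  ∀ f ∈ OX, f ∘ p ∈ OZ

variable {OZ : Subalgebra k (Z → k)} {O₁ : Subalgebra k (X → k)} {O₂ : Subalgebra k (Y → k)}
  {OW : Subalgebra k (W → k)}

lemma reg_id : Reg O₁ O₁ id := fun _ hf => hf

lemma Reg.comp {p : Z → X} {q : W → Z} (hp : Reg OZ O₁ p) (hq : Reg OW OZ q) :
    Reg OW O₁ (p ∘ q) := fun f hf => hq _ (hp f hf)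

lemma reg_fst : Reg (box O₁ O₂) O₁ Prod.fst := fun f hf =>
  (le_sup_left : O₁.map (pull Prod.fst) ≤ box O₁ O₂) ⟨f, hf, rfl⟩

lemma reg_snd : Reg (box O₁ O₂) O₂ Prod.snd := fun f hf =>
  (le_sup_right : O₂.map (pull Prod.snd) ≤ box O₁ O₂) ⟨f, hf, rfl⟩

lemma Reg.pair {p : Z → X} {q : Z → Y} (hp : Reg OZ O₁ p) (hq : Reg OZ O₂ q) :
    Reg OZ (box O₁ O₂) (fun z => (p z, q z)) := by
  have h : box O₁ O₂ ≤ OZ.comap (pull (fun z => (p z, q z))) := by
    refine sup_le ?_ ?_
    · rintro _ ⟨f, hf, rfl⟩
      exact hp f hf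
    · rintro _ ⟨f, hf, rfl⟩
      exact hq f hf
  exact fun f hf => h hf

lemma Reg.prodMap {X' Y' : Type} {O₁' : Subalgebra k (X' → k)} {O₂' : Subalgebra k (Y' → k)}
    {p : X' → X} {q : Y' → Y} (hp : Reg O₁' O₁ p) (hq : Reg O₂' O₂ q) :
    Reg (box O₁' O₂') (box O₁ O₂) (fun z => (p z.1, q z.2)) :=
  (hp.comp reg_fst).pair (hq.comp reg_snd)

lemma reg_const (x : X) : Reg OZ O₁ (fun _ => x) := fun f _ => by
  have : f ∘ (fun _ : Z => x) = algebraMap k (Z → k) (f x) := rfl
  rw [this]
  exact OZ.algebraMap_mem _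

/-- a regular function on the product is a finite sum of products -/
lemma box_sum {F : X × Y → k} (hF : F ∈ box O₁ O₂) : ∃ (n : ℕ) (a : Fin n → X → k)
    (b : Fin n → Y → k), (∀ i, a i ∈ O₁) ∧ (∀ i, b i ∈ O₂) ∧ ∀ x y, F (x, y) = ∑ i, a i x * b i y := by
  set gen : Set (X × Y → k) := {F | ∃ a ∈ O₁, ∃ b ∈ O₂, F = fun p => a p.1 * b p.2} with hgen
  have h1 : (1 : X × Y → k) ∈ Submodule.span k gen :=
    Submodule.subset_span ⟨1, O₁.one_mem, 1, O₂.one_mem, by ext; simp⟩
  have h2 : ∀ u v : X × Y → k, u ∈ Submodule.span k gen → v ∈ Submodule.span k gen →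
      u * v ∈ Submodule.span k gen := by
    intro u v hu hv
    induction hu using Submodule.span_induction with
    | mem u hu =>
      induction hv using Submodule.span_induction with
      | mem v hv =>
        obtain ⟨a, ha, b, hb, rfl⟩ := hu
        obtain ⟨c, hc, d, hd, rfl⟩ := hv
        refine Submodule.subset_span ⟨a * c, O₁.mul_mem ha hc, b * d, O₂.mul_mem hb hd, ?_⟩
        ext p
        simp only [Pi.mul_apply]
        ring
      | zero => rw [mul_zero]; exact Submodule.zero_mem _
      | add x y _ _ hx hy => rw [mul_add]; exact Submodule.add_mem _ hx hy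
      | smul c x _ hx => rw [mul_smul_comm]; exact Submodule.smul_mem _ _ hx
    | zero => rw [zero_mul]; exact Submodule.zero_mem _
    | add x y _ _ hx hy => rw [add_mul]; exact Submodule.add_mem _ hx hy
    | smul c x _ hx => rw [smul_mul_assoc]; exact Submodule.smul_mem _ _ hx
  have h3 : box O₁ O₂ ≤ (Submodule.span k gen).toSubalgebra h1 h2 := by
    refine sup_le ?_ ?_
    · rintro _ ⟨f, hf, rfl⟩
      refine Submodule.subset_span ⟨f, hf, 1, O₂.one_mem, ?_⟩
      ext p
      simp [pull]
    · rintro _ ⟨f, hf, rfl⟩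
      refine Submodule.subset_span ⟨1, O₁.one_mem, f, hf, ?_⟩
      ext p
      simp [pull]
  have h4 : F ∈ Submodule.span k gen := h3 hF
  clear h3 hF
  induction h4 using Submodule.span_induction with
  | mem u hu =>
    obtain ⟨a, ha, b, hb, rfl⟩ := hu
    exact ⟨1, fun _ => a, fun _ => b, fun _ => ha, fun _ => hb, fun x y => by simp⟩
  | zero => exact ⟨0, Fin.elim0, Fin.elim0, fun i => i.elim0, fun i => i.elim0, fun x y => by simp⟩
  | add u v _ _ hu hv =>
    obtain ⟨n, a, b, ha, hb, h⟩ := hu
    obtain ⟨m, c, d, hc, hd, h'⟩ := hv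
    refine ⟨n + m, Fin.append a c, Fin.append b d, ?_, ?_, fun x y => ?_⟩
    · intro i
      refine Fin.addCases (fun i => ?_) (fun i => ?_) i
      · rw [Fin.append_left]; exact ha i
      · rw [Fin.append_right]; exact hc i
    · intro i
      refine Fin.addCases (fun i => ?_) (fun i => ?_) i
      · rw [Fin.append_left]; exact hb i
      · rw [Fin.append_right]; exact hd i
    · rw [Fin.sum_univ_add, Pi.add_apply, h, h']
      simp
  | smul c u _ hu =>
    obtain ⟨n, a, b, ha, hb, h⟩ := hu
    refine ⟨n, fun i => c • a i, b, fun i => O₁.smul_mem (ha i) c, hb, fun x y => ?_⟩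
    rw [Pi.smul_apply, h, smul_eq_mul, Finset.mul_sum]
    refine Finset.sum_congr rfl fun i _ => ?_
    change c * (a i x * b i y) = (c * a i x) * b i y
    ring

end functions

/-- An affine algebraic group over the (algebraically closed) field `k` in the classical language: a
group `G` with an algebra `O` of regular functions `G → k` which is finitely generated, such that the
elements of `G` are the same as the homomorphisms of `k`-algebras `O → k` (`point`, `sep`), and such
that multiplication and inversion are morphisms. -/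
structure AlgGroup (k : Type) [Field k] where
  /-- the elements -/
  G : Type
  /-- the group structure -/
  [grp : Group G]
  /-- the regular functions -/
  O : Subalgebra k (G → k)
  fg : O.FG
  point : ∀ ξ : O →ₐ[k] k, ∃ g : G, ∀ f : O, ξ f = f.1 g
  sep : ∀ g h : G, (∀ f ∈ O, f g = f h) → g = h
  mul : Reg (box O O) O (fun x => x.1 * x.2)
  inv : Reg O O (fun x => x⁻¹)

attribute [instance] AlgGroup.grp

variable {k : Type} [Field k]

lemma Reg.mul {G : AlgGroup k} {Z : Type} {OZ : Subalgebra k (Z → k)} {p q : Z → G.G}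
    (hp : Reg OZ G.O p) (hq : Reg OZ G.O q) : Reg OZ G.O (fun z => p z * q z) :=
  G.mul.comp (hp.pair hq)

lemma Reg.inv {G : AlgGroup k} {Z : Type} {OZ : Subalgebra k (Z → k)} {p : Z → G.G}
    (hp : Reg OZ G.O p) : Reg OZ G.O (fun z => (p z)⁻¹) :=
  G.inv.comp hp

namespace AlgGroup

/-- The product of two algebraic groups. -/
def prod (G H : AlgGroup k) : AlgGroup k where
  G := G.G × H.G
  O := box G.O H.O
  fg := by
    obtain ⟨s, hs⟩ := G.fg.map (pull (Prod.fst : G.G × H.G → G.G))
    obtain ⟨t, ht⟩ := H.fg.map (pull (Prod.snd : G.G × H.G → H.G))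
    classical
    refine ⟨s ∪ t, ?_⟩
    rw [Finset.coe_union, Algebra.adjoin_union, hs, ht]
    rfl
  point := by
    intro ξ
    obtain ⟨g, hg⟩ := G.point (ξ.comp ((pull (Prod.fst : G.G × H.G → G.G)).comp G.O.val |>.codRestrict
      (box G.O H.O) (fun f => reg_fst f.1 f.2)))
    obtain ⟨h, hh⟩ := H.point (ξ.comp ((pull (Prod.snd : G.G × H.G → H.G)).comp H.O.val |>.codRestrict
      (box G.O H.O) (fun f => reg_snd f.1 f.2)))
    refine ⟨(g, h), ?_⟩
    set ev : box G.O H.O →ₐ[k] k := (Pi.evalAlgHom k (fun _ : G.G × H.G => k) (g, h)).comp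
      (box G.O H.O).val with hev
    have key : box G.O H.O ≤ (AlgHom.equalizer ξ ev).map (box G.O H.O).val := by
      refine sup_le ?_ ?_
      · rintro _ ⟨f, hf, rfl⟩
        exact ⟨⟨_, reg_fst f hf⟩, hg ⟨f, hf⟩, rfl⟩
      · rintro _ ⟨f, hf, rfl⟩
        exact ⟨⟨_, reg_snd f hf⟩, hh ⟨f, hf⟩, rfl⟩
    intro f
    obtain ⟨f', h1, h2⟩ := key f.2
    have h3 : f' = f := Subtype.ext h2
    rw [h3] at h1
    exact h1
  sep := by
    rintro ⟨g, h⟩ ⟨g', h'⟩ H'
    refine Prod.ext (G.sep _ _ fun f hf => ?_) (H.sep _ _ fun f hf => ?_)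
    · exact H' _ (reg_fst f hf)
    · exact H' _ (reg_snd f hf)
  mul := ((reg_fst.comp reg_fst).mul (reg_fst.comp reg_snd)).pair
    ((reg_snd.comp reg_fst).mul (reg_snd.comp reg_snd))
  inv := (reg_fst.inv).pair (reg_snd.inv)

variable (G : AlgGroup k)

/-- The regular functions on a subgroup: restrictions of regular functions. -/
def res (S : Subgroup G.G) : Subalgebra k (El S → k) := G.O.map (pull Subtype.val)

/-- The subgroup `S` is closed for the Zariski topology. -/
def Closed (S : Subgroup G.G) : Prop := ∀ g ∉ S, ∃ f ∈ G.O, (∀ s ∈ S, f s = 0) ∧ f g ≠ 0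

variable {G}

lemma reg_val (S : Subgroup G.G) : Reg (G.res S) G.O Subtype.val := fun f hf => ⟨f, hf, rfl⟩

/-- a map to a subset is a morphism if it is so as a map to the group -/
lemma reg_sub {S : Subgroup G.G} {Z : Type} {OZ : Subalgebra k (Z → k)} {p : Z → El S}
    (hp : Reg OZ G.O (fun z => (p z : G.G))) : Reg OZ (G.res S) p := by
  rintro _ ⟨f, hf, rfl⟩
  exact hp f hf

variable (G)

/-- A closed subgroup as an algebraic group. -/
def sub (S : Subgroup G.G) (hS : G.Closed S) : AlgGroup k where
  G := El S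
  O := G.res S
  fg := G.fg.map _
  point := by
    intro ξ
    obtain ⟨g, hg⟩ := G.point (ξ.comp ((pull (Subtype.val : El S → G.G)).comp G.O.val |>.codRestrict
      (G.res S) (fun f => ⟨f.1, f.2, rfl⟩)))
    have hgS : g ∈ S := by
      by_contra h
      obtain ⟨f, hf, h0, h1⟩ := hS g h
      apply h1
      have h2 := hg ⟨f, hf⟩
      change _ = f g at h2
      rw [← h2]
      have h3 : ((pull (Subtype.val : El S → G.G)).comp G.O.val |>.codRestrict
          (G.res S) (fun f => ⟨f.1, f.2, rfl⟩)) ⟨f, hf⟩ = 0 := by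
        apply Subtype.ext
        ext s
        exact h0 s.1 s.2
      rw [AlgHom.comp_apply, h3, map_zero]
    refine ⟨⟨g, hgS⟩, ?_⟩
    rintro ⟨_, f, hf, rfl⟩
    exact hg ⟨f, hf⟩
  sep := by
    intro g h H
    exact Subtype.ext (G.sep _ _ fun f hf => H _ ⟨f, hf, rfl⟩)
  mul := reg_sub (((reg_val _).comp reg_fst).mul ((reg_val _).comp reg_snd))
  inv := reg_sub ((reg_val _).inv)

/-- The limit `lim c(t)` for `t → 0` exists and is equal to `g`: the map `c`, defined for `t ≠ 0`,
extends to a morphism from the affine line with value `g` at zero. -/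
def HasLim (c : kˣ → G.G) (g : G.G) : Prop :=
  ∀ f ∈ G.O, ∃ P : Polynomial k, (∀ t : kˣ, P.eval (t : k) = f (c t)) ∧ P.eval 0 = f g

variable {G}

lemma hasLim_const (g : G.G) : G.HasLim (fun _ => g) g := fun f _ =>
  ⟨Polynomial.C (f g), fun _ => Polynomial.eval_C, Polynomial.eval_C⟩

/-- polynomials extending a function on `k ∖ 0` are unique -/
lemma poly_unique [Infinite k] {P Q : Polynomial k} (h : ∀ t : kˣ, P.eval (t : k) = Q.eval (t : k)) :
    P = Q := by
  refine Polynomial.eq_of_infinite_eval_eq P Q ?_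
  have h1 : Set.Infinite {x : k | x ≠ 0} := by
    have := (Set.infinite_univ (α := k)).sdiff (Set.finite_singleton (0 : k))
    refine this.mono ?_
    rintro x ⟨-, hx⟩
    exact hx
  exact h1.mono fun x hx => h (Units.mk0 x hx)

lemma HasLim.unique [Infinite k] {c : kˣ → G.G} {g h : G.G} (hg : G.HasLim c g)
    (hh : G.HasLim c h) : g = h := by
  refine G.sep _ _ fun f hf => ?_
  obtain ⟨P, h1, h2⟩ := hg f hf
  obtain ⟨Q, h3, h4⟩ := hh f hf
  rw [← h2, ← h4, poly_unique (P := P) (Q := Q) fun t => by rw [h1, h3]]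

/-- limits in a product -/
lemma lim_box {H : AlgGroup k} {c : kˣ → G.G} {d : kˣ → H.G} {g : G.G} {h : H.G}
    (hc : G.HasLim c g) (hd : H.HasLim d h) {F : G.G × H.G → k} (hF : F ∈ box G.O H.O) :
    ∃ P : Polynomial k, (∀ t : kˣ, P.eval (t : k) = F (c t, d t)) ∧ P.eval 0 = F (g, h) := by
  obtain ⟨n, a, b, ha, hb, e⟩ := box_sum hF
  choose P hP hP0 using fun i => hc (a i) (ha i)
  choose Q hQ hQ0 using fun i => hd (b i) (hb i)
  refine ⟨∑ i, P i * Q i, fun t => ?_, ?_⟩
  · rw [Polynomial.eval_finsetSum, e]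
    exact Finset.sum_congr rfl fun i _ => by rw [Polynomial.eval_mul, hP, hQ]
  · rw [Polynomial.eval_finsetSum, e]
    exact Finset.sum_congr rfl fun i _ => by rw [Polynomial.eval_mul, hP0, hQ0]

lemma HasLim.prod {H : AlgGroup k} {c : kˣ → G.G} {d : kˣ → H.G} {g : G.G} {h : H.G}
    (hc : G.HasLim c g) (hd : H.HasLim d h) : (G.prod H).HasLim (fun t => (c t, d t)) (g, h) :=
  fun _ hF => lim_box hc hd hF

lemma HasLim.map {H : AlgGroup k} {φ : G.G → H.G} (hφ : Reg G.O H.O φ) {c : kˣ → G.G} {g : G.G}
    (hc : G.HasLim c g) : H.HasLim (fun t => φ (c t)) (φ g) := fun f hf => hc _ (hφ f hf)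

lemma HasLim.mul {c d : kˣ → G.G} {g h : G.G} (hc : G.HasLim c g) (hd : G.HasLim d h) :
    G.HasLim (fun t => c t * d t) (g * h) := fun _ hf => lim_box hc hd (G.mul _ hf)

lemma HasLim.inv {c : kˣ → G.G} {g : G.G} (hc : G.HasLim c g) :
    G.HasLim (fun t => (c t)⁻¹) g⁻¹ := hc.map G.inv

lemma HasLim.scale {c : kˣ → G.G} {g : G.G} (hc : G.HasLim c g) (s : kˣ) :
    G.HasLim (fun t => c (s * t)) g := by
  intro f hf
  obtain ⟨P, h1, h2⟩ := hc f hf
  refine ⟨P.comp (Polynomial.C (s : k) * Polynomial.X), fun t => ?_, ?_⟩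
  · rw [Polynomial.eval_comp]
    simp only [Polynomial.eval_mul, Polynomial.eval_C, Polynomial.eval_X]
    rw [← Units.val_mul, h1]
  · rw [Polynomial.eval_comp]
    simp only [Polynomial.eval_mul, Polynomial.eval_C, Polynomial.eval_X, mul_zero]
    exact h2

end AlgGroup

end Pool.Agent.Q173.GZ
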