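import Pool.Agent.Q173.GZ.Basic

/-!
# Parabolic subgroups, reductive groups, rational actions, and the ring of automorphic forms on `G`-zips
-/

set_option autoImplicit false

namespace Pool.Agent.Q173.GZ

variable {k : Type} [Field k]

/-- The regular functions on the multiplicative group: generated by `t` and `t⁻¹`. -/
def unitFns (k : Type) [Field k] : Subalgebra k (kˣ → k) :=
  Algebra.adjoin k {fun t : kˣ => (t : k), fun t : kˣ => ((t⁻¹ : kˣ) : k)}

/-- A cocharacter of `G`: a homomorphism of algebraic groups from the multiplicative group to `G`. -/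
structure Cochar (G : AlgGroup k) where
  /-- the homomorphism -/
  hom : kˣ →* G.G
  reg : Reg (unitFns k) G.O hom

namespace Cochar

variable {G : AlgGroup k}

/-- The inverse cocharacter `t ↦ ν(t)⁻¹`. -/
def inv (ν : Cochar G) : Cochar G where
  hom := ν.hom.comp (invMonoidHom : kˣ →* kˣ)
  reg := by
    have h : unitFns k ≤ (unitFns k).comap (pull (fun t : kˣ => t⁻¹)) := by
      refine Algebra.adjoin_le ?_
      rintro _ (rfl | rfl)
      · exact Algebra.subset_adjoin (Or.inr rfl)
      · refine Algebra.subset_adjoin (Or.inl ?_)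
        ext t
        simp [pull]
    exact fun f hf => h (ν.reg f hf)

/-- The limit of `ν(t) g ν(t)⁻¹` for `t → 0` exists and is equal to `l`. -/
def Lim (ν : Cochar G) (g l : G.G) : Prop := G.HasLim (fun t => ν.hom t * g * (ν.hom t)⁻¹) l

/-- `P_+(ν)`: the elements `g` such that `lim ν(t) g ν(t)⁻¹` for `t → 0` exists. -/
def para (ν : Cochar G) : Subgroup G.G where
  carrier := {g | ∃ l, ν.Lim g l}
  one_mem' := ⟨1, by unfold Lim; simpa using AlgGroup.hasLim_const (G := G) 1⟩
  mul_mem' := by
    rintro a b ⟨l, hl⟩ ⟨m, hm⟩
    refine ⟨l * m, ?_⟩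
    have := AlgGroup.HasLim.mul hl hm
    unfold Lim
    simpa [mul_assoc] using this
  inv_mem' := by
    rintro a ⟨l, hl⟩
    refine ⟨l⁻¹, ?_⟩
    have := AlgGroup.HasLim.inv hl
    unfold Lim
    simpa [mul_assoc] using this

/-- The unipotent radical of `P_+(ν)`: the elements `g` such that `lim ν(t) g ν(t)⁻¹ = 1`. -/
def unip (ν : Cochar G) : Subgroup G.G where
  carrier := {g | ν.Lim g 1}
  one_mem' := by
    change ν.Lim 1 1
    unfold Lim
    simpa using AlgGroup.hasLim_const (G := G) 1
  mul_mem' := by
    intro a b hl hm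
    change ν.Lim (a * b) 1
    have := AlgGroup.HasLim.mul hl hm
    unfold Lim
    simpa [mul_assoc] using this
  inv_mem' := by
    intro a hl
    change ν.Lim a⁻¹ 1
    have := AlgGroup.HasLim.inv hl
    unfold Lim
    simpa [mul_assoc] using this

/-- The centralizer of `ν`, the Levi subgroup of `P_+(ν)` and of `P_+(ν⁻¹)`. -/
def levi (ν : Cochar G) : Subgroup G.G where
  carrier := {g | ∀ t, ν.hom t * g = g * ν.hom t}
  one_mem' := fun t => by rw [mul_one, one_mul]
  mul_mem' := by
    intro a b ha hb t
    rw [← mul_assoc, ha t, mul_assoc, hb t, mul_assoc]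
  inv_mem' := by
    intro a ha t
    exact (show Commute (ν.hom t) a from ha t).inv_right

lemma levi_closed (ν : Cochar G) : G.Closed ν.levi := by
  intro g hg
  have h1 : ∃ t, ν.hom t * g * (ν.hom t)⁻¹ ≠ g := by
    by_contra h
    push Not at h
    exact hg fun t => mul_inv_eq_iff_eq_mul.1 (h t)
  obtain ⟨t, ht⟩ := h1
  have h2 : ∃ f ∈ G.O, f (ν.hom t * g * (ν.hom t)⁻¹) ≠ f g := by
    by_contra h
    push Not at h
    exact ht (G.sep _ _ h)
  obtain ⟨f, hf, hne⟩ := h2
  have h3 : Reg G.O G.O (fun x => ν.hom t * x * (ν.hom t)⁻¹) :=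
    ((reg_const _).mul reg_id).mul (reg_const _)
  refine ⟨_, G.O.sub_mem (h3 f hf) hf, fun s hs => ?_, ?_⟩
  · have : ν.hom t * s * (ν.hom t)⁻¹ = s := mul_inv_eq_iff_eq_mul.2 (hs t)
    simp [this]
  · simpa [sub_eq_zero] using hne

/-- A cocharacter with values in a closed subgroup. -/
def sub (ν : Cochar G) (S : Subgroup G.G) (hS : G.Closed S) (h : ∀ t, ν.hom t ∈ S) :
    Cochar (G.sub S hS) where
  hom := ν.hom.codRestrict S h
  reg := AlgGroup.reg_sub (p := ν.hom.codRestrict S h) ν.reg

end Cochar

namespace AlgGroup

variable (G : AlgGroup k)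

/-- The closed subgroup `S` is connected: it has no proper closed subgroup of finite index. -/
def Conn (S : Subgroup G.G) : Prop :=
  ∀ S' : Subgroup G.G, S' ≤ S → G.Closed S' → S'.relIndex S ≠ 0 → S' = S

/-- The element `g` is unipotent: the right translation by `g` is locally unipotent on the regular
functions. -/
def IsUnip (g : G.G) : Prop :=
  ∀ f ∈ G.O, ∃ n : ℕ, ((fun F : G.G → k => (fun x => F (x * g)) - F)^[n]) f = 0

/-- `G` is a connected reductive group: it is connected and the only closed connected normal subgroup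
which consists of unipotent elements is the trivial one. -/
def Reductive : Prop :=
  G.Conn ⊤ ∧ ∀ N : Subgroup G.G, N.Normal → G.Closed N → G.Conn N → (∀ g ∈ N, G.IsUnip g) → N = ⊥

variable {G} in
/-- The homomorphisms from a subgroup to the multiplicative group of `k`. -/
@[reducible] def HomK (S : Subgroup G.G) : Type := El S →* kˣ

variable {G} in
/-- The group of homomorphisms (the instance of Mathlib, under a short name). -/
@[reducible, instance 5000] def homKGroup (S : Subgroup G.G) : Group (HomK S) :=
  CommGroup.toGroup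

variable {G} in
/-- The value of a homomorphism as an element of `k`. -/
@[reducible] def HomK.val {S : Subgroup G.G} (χ : HomK S) (s : El S) : k := ((χ s : kˣ) : k)

/-- The regular characters `S → kˣ` of a closed subgroup. -/
def chars (S : Subgroup G.G) : Subgroup (HomK S) where
  carrier := {χ | χ.val ∈ G.res S}
  one_mem' := (G.res S).one_mem
  mul_mem' := by
    intro a b ha hb
    exact (G.res S).mul_mem ha hb
  inv_mem' := by
    intro a ha
    obtain ⟨f, hf, e⟩ := ha
    refine ⟨_, G.inv f hf, ?_⟩
    ext s
    have h : f (s : G.G)⁻¹ = ((a s⁻¹ : kˣ) : k) := congrFun e s⁻¹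
    rw [map_inv] at h
    exact h

/-- A torus: closed, connected, and the regular functions are spanned by characters. -/
def Torus (T : Subgroup G.G) : Prop :=
  G.Closed T ∧ G.Conn T ∧
    ∀ f ∈ G.res T, f ∈ Submodule.span k {F : El T → k | ∃ χ ∈ G.chars T, F = χ.val}

/-- A maximal torus. -/
def MaxTorus (T : Subgroup G.G) : Prop := G.Torus T ∧ ∀ T', G.Torus T' → T ≤ T' → T' = T

/-- A Borel subgroup: a maximal closed connected solvable subgroup. -/
def Borel (B : Subgroup G.G) : Prop :=
  (G.Closed B ∧ G.Conn B ∧ Group.IsSolvable B) ∧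
    ∀ B' : Subgroup G.G, G.Closed B' → G.Conn B' → Group.IsSolvable B' → B ≤ B' → B' = B

end AlgGroup

/-- The action `ρ` of the algebraic group `H` on the `k`-algebra `A` by automorphisms is rational: it is
locally finite and its matrix coefficients are regular functions. -/
def Rational (H : AlgGroup k) {A : Type} [CommRing A] [Algebra k A] (ρ : H.G →* (A ≃ₐ[k] A)) :
    Prop :=
  ∀ a : A, (Submodule.span k (Set.range fun h => ρ h a)).FG ∧
    ∀ ψ : A →ₗ[k] k, (fun h => ψ (ρ h a)) ∈ H.O

/-- The subalgebra of invariants of a subgroup. -/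
def invariants {H A : Type} [Group H] [CommRing A] [Algebra k A] (ρ : H →* (A ≃ₐ[k] A))
    (S : Subgroup H) : Subalgebra k A where
  carrier := {a | ∀ s ∈ S, ρ s a = a}
  mul_mem' := by
    intro a b ha hb s hs
    rw [map_mul, ha s hs, hb s hs]
  add_mem' := by
    intro a b ha hb s hs
    rw [map_add, ha s hs, hb s hs]
  algebraMap_mem' := by
    intro r s _
    exact (ρ s).commutes r

/-- Textbook theorem: products of connected reductive groups are connected reductive. -/
def ProductTheorem (k : Type) [Field k] : Prop :=
  ∀ G H : AlgGroup k, G.Reductive → H.Reductive → (G.prod H).Reductive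

/-- Textbook theorem: the centralizer of a cocharacter of a connected reductive group is connected
reductive. -/
def LeviTheorem (k : Type) [Field k] : Prop :=
  ∀ (G : AlgGroup k) (ν : Cochar G), G.Reductive → (G.sub ν.levi ν.levi_closed).Reductive

/-- Textbook theorem: let `T ≤ B` be a maximal torus in a Borel subgroup of the connected reductive
group `G`, and let `μ` be a cocharacter with `T ≤ Cent(μ)` and `B ≤ P_+(μ)`. Then there is a
(regular, dominant) cocharacter `ν` with `B = P_+(ν)` and `T = Cent(ν)`, and the unipotent radical of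
`P_+(μ)` is contained in the unipotent radical of `B`. -/
def BorelTheorem (k : Type) [Field k] : Prop :=
  ∀ (G : AlgGroup k) (μ : Cochar G) (B T : Subgroup G.G), G.Reductive → G.Borel B → G.MaxTorus T →
    T ≤ B → T ≤ μ.levi → B ≤ μ.para →
      ∃ ν : Cochar G, B = ν.para ∧ T = ν.levi ∧ μ.unip ≤ ν.unip

/-- The theorem of Hadžiev and Grosshans on invariants of unipotent radicals: let `H` be a connected
reductive group over the algebraically closed field `k`, and let `A` be a finitely generated
commutative `k`-algebra with a rational action of `H`. Then the algebra of invariants of the unipotent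
radical of any parabolic subgroup `P_+(ν)` is finitely generated. -/
def GrosshansTheorem (k : Type) [Field k] : Prop :=
  ∀ (H : AlgGroup k) (ν : Cochar H), H.Reductive → ∀ (A : Type) [CommRing A] [Algebra k A]
    (ρ : H.G →* (A ≃ₐ[k] A)), Algebra.FiniteType k A → Rational H ρ →
      (invariants ρ ν.unip).FG

end Pool.Agent.Q173.GZ
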