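import Pool.Agent.Q173.GZ.Main

/-!
# Finite generation of the ring of automorphic forms on `G`-zips
-/

set_option autoImplicit false

namespace Pool.Agent.Q173.GZ

variable {k : Type} [Field k] [IsAlgClosed k]

namespace ZipDatum

variable {p : ℕ} {D : ZipDatum k p} {ν : Cochar D.Gp}

omit [IsAlgClosed k] in
/-- characters of the torus are linearly independent -/
lemma indep_T : LinearIndependent k (fun χ : D.Gp.chars D.T => fun t : D.T => (χ.1 t : k)) := by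
  have h := linearIndependent_monoidHom D.T k
  refine h.comp (fun χ : D.Gp.chars D.T => (Units.coeHom k).comp χ.1) ?_
  intro χ χ' e
  apply Subtype.ext
  ext t
  exact DFunLike.congr_fun e t

/-- characters of the Borel subgroup are linearly independent on the torus -/
lemma indep_B (hB : D.B = ν.para) (hT : D.T = ν.levi) : LinearIndependent k
    (fun χ : D.Gp.chars D.B => fun t : D.T => (χ.1 ⟨t, D.T_le_B t.2⟩ : k)) := by
  have h := linearIndependent_monoidHom D.T k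
  refine h.comp (fun χ : D.Gp.chars D.B => (Units.coeHom k).comp
    (χ.1.comp (Subgroup.inclusion D.T_le_B))) ?_
  intro χ χ' e
  apply Subtype.ext
  ext b
  have e' : ∀ t : D.T, χ.1 ⟨t, D.T_le_B t.2⟩ = χ'.1 ⟨t, D.T_le_B t.2⟩ := fun t =>
    Units.ext (DFunLike.congr_fun e t)
  have hb : (b : D.Gp.G) ∈ ν.para := hB ▸ b.2
  obtain ⟨l, hl⟩ := hb
  have hl' : ν.Lim (b : D.Gp.G) l := hl
  have hlT : l ∈ D.T := hT ▸ hl'.mem_levi
  have hu : l⁻¹ * (b : D.Gp.G) ∈ ν.unip := hl'.div_mem'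
  set b₁ : D.B := ⟨l, D.T_le_B hlT⟩ with hb₁
  have hb2 : b = b₁ * (b₁⁻¹ * b) := by rw [mul_inv_cancel_left]
  have h1 := char_unip hT χ (b₁⁻¹ * b) hu
  have h2 := char_unip hT χ' (b₁⁻¹ * b) hu
  rw [hb2, map_mul, map_mul χ'.1, h1, h2, e' ⟨l, hlT⟩]

lemma ev0_inj (hp : 0 < p) (hB : D.B = ν.para) (hT : D.T = ν.levi)
    {r : MonoidAlgebra (D.Gp.G × D.P → k) (D.Gp.chars D.B)} (hr : r ∈ D.Rzip)
    (h0 : D.ev0 r = 0) : r = 0 := by
  have h1 : ∀ g, ∀ χ ∈ r.coeff.support, r.coeff χ (g, 1) = 0 := by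
    intro g
    refine linearIndependent_iff'.1 (indep_B hB hT) r.coeff.support (fun χ => r.coeff χ (g, 1)) ?_
    ext t
    have h2 := congrFun h0 ((t : D.Gp.G) * g * (D.phi t)⁻¹)
    rw [ev0_apply] at h2
    rw [Finset.sum_apply]
    rw [Pi.zero_apply] at h2 ⊢
    rw [← h2]
    refine Finset.sum_congr rfl fun χ _ => ?_
    have := sec_semi (hr χ) ⟨t, D.T_le_B t.2⟩ (E_torus hp t.2) g
    rw [Pi.smul_apply, smul_eq_mul, mul_comm]
    exact this.symm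
  have h2 : r.coeff = 0 := by
    rw [← Finsupp.support_eq_empty]
    by_contra hne
    obtain ⟨χ, hχ⟩ := Finset.nonempty_iff_ne_empty.2 hne
    refine Finsupp.mem_support_iff.1 hχ ?_
    ext ⟨g, x⟩
    have h3 := (hr χ).2.2 x (D.phi (D.theta x)) ((x : D.Gp.G)⁻¹ * g * D.phi (D.theta x)) 1
      (E_theta hp x)
    rw [mul_one] at h3
    have h4 : (x : D.Gp.G) * ((x : D.Gp.G)⁻¹ * g * D.phi (D.theta x)) * (D.phi (D.theta x))⁻¹ = g := by
      simp [mul_assoc]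
    rw [h4] at h3
    change D.cf r χ (g, x) = 0
    rw [h3]
    exact h1 _ χ hχ
  exact MonoidAlgebra.coeff_eq_zero.1 h2

/-- the Levi projection of the Borel subgroup -/
lemma exists_thetaB (hB : D.B = ν.para) (hT : D.T = ν.levi) (b : D.B) :
    ∃ t : D.T, ν.Lim (b : D.Gp.G) t := by
  have hb : (b : D.Gp.G) ∈ ν.para := hB ▸ b.2
  obtain ⟨l, hl⟩ := hb
  have hl' : ν.Lim (b : D.Gp.G) l := hl
  exact ⟨⟨l, hT ▸ hl'.mem_levi⟩, hl⟩

/-- extension (of the inverse) of a character of the torus to the Borel subgroup -/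
lemma exists_ext (hB : D.B = ν.para) (hT : D.T = ν.levi) (χ : D.Gp.chars D.T) :
    ∃ χ' : D.Gp.chars D.B, ∀ (b : D.B) (t : D.T), ν.Lim (b : D.Gp.G) t → χ'.1 b = (χ.1 t)⁻¹ := by
  choose th hth using exists_thetaB hB hT
  have huniq : ∀ (b : D.B) (t : D.T), ν.Lim (b : D.Gp.G) t → th b = t := fun b t h =>
    Subtype.ext ((hth b).unique h)
  have h1 : th 1 = 1 := huniq _ _ Cochar.lim_one
  have h2 : ∀ b b', th (b * b') = th b * th b' := fun b b' =>
    huniq _ _ ((hth b).mul (hth b'))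
  set ψ : D.B →* kˣ :=
    { toFun := fun b => (χ.1 (th b))⁻¹
      map_one' := by rw [h1, map_one, inv_one]
      map_mul' := fun b b' => by rw [h2, map_mul, mul_inv] } with hψ
  have hψr : ψ ∈ D.Gp.chars D.B := by
    obtain ⟨f, hf, e⟩ := (D.Gp.chars D.T).inv_mem χ.2
    obtain ⟨f₀, hf₀, e₀⟩ := lim_reg ν.hom hf
    refine ⟨f₀, hf₀, ?_⟩
    ext b
    change f₀ b = (((χ.1 (th b))⁻¹ : kˣ) : k)
    rw [← e₀ _ _ (hth b)]
    exact congrFun e (th b)
  exact ⟨⟨ψ, hψr⟩, fun b t h => by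
    change (χ.1 (th b))⁻¹ = (χ.1 t)⁻¹
    rw [huniq b t h]⟩

/-- extension of a semi-invariant function on `G` to a section -/
lemma isSection_ext (hp : 0 < p) {χ : D.Gp.chars D.B} {F : D.Gp.G → k} (hF : F ∈ D.Gp.O)
    (h1 : ∀ (b : D.B) (y : D.Gp.G), D.E b y → ∀ g, F (b * g * y⁻¹) = (χ.1 b : k) * F g)
    (h2 : ∀ v ∈ D.mu'.unip, ∀ g, F (g * v⁻¹) = F g) :
    D.IsSection χ (fun z => F ((z.2 : D.Gp.G)⁻¹ * z.1 * D.phi (D.theta z.2))) := by
  refine ⟨?_, ?_, ?_⟩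
  · have a1 : Reg (box D.Gp.O (D.Gp.res D.P)) D.Gp.O (fun z => (z.2 : D.Gp.G)) :=
      (AlgGroup.reg_val _).comp reg_snd
    have a2 : Reg (box D.Gp.O (D.Gp.res D.P)) D.Gp.O (fun z => D.phi (D.theta z.2)) :=
      (D.phi_reg.comp theta_reg).comp reg_snd
    exact ((a1.inv.mul reg_fst).mul a2) F hF
  · intro g x b
    change F (((x * ⟨b, D.B_le_P b.2⟩ : D.P) : D.Gp.G)⁻¹ * g *
      D.phi (D.theta (x * ⟨b, D.B_le_P b.2⟩))) = _
    have e := E_inv (E_theta hp (⟨b, D.B_le_P b.2⟩ : D.P))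
    have h := h1 b⁻¹ (D.phi (D.theta ⟨b, D.B_le_P b.2⟩))⁻¹ e
      ((x : D.Gp.G)⁻¹ * g * D.phi (D.theta x))
    rw [map_inv] at h
    rw [← h, theta_mul, map_mul]
    congr 1
    simp [mul_assoc]
  · intro x y g z e
    obtain ⟨l, a, b⟩ := e
    have hl : D.theta x = l := theta_eq a
    have hv : (D.phi l)⁻¹ * y ∈ D.mu'.unip := Cochar.Lim.div_mem' (ν := D.mu') b
    have hz : (D.phi (D.theta z))⁻¹ ∈ D.mu'.levi :=
      Subgroup.inv_mem _ (D.phi_levi hp (theta_levi z))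
    have hw := Cochar.conj_unip hz hv
    change F (((x * z : D.P) : D.Gp.G)⁻¹ * (x * g * y⁻¹) * D.phi (D.theta (x * z))) =
      F ((z : D.Gp.G)⁻¹ * g * D.phi (D.theta z))
    rw [← h2 _ hw ((z : D.Gp.G)⁻¹ * g * D.phi (D.theta z)), theta_mul, map_mul, hl]
    congr 1
    simp [mul_assoc]

lemma ev0_surj (hp : 0 < p) (hB : D.B = ν.para) (hT : D.T = ν.levi) {F : D.Gp.G → k}
    (hF : F ∈ D.R1 ν) : ∃ r ∈ D.Rzip, D.ev0 r = F := by
  classical
  obtain ⟨hFO, hFi⟩ := hF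
  -- expansion
  have r1 : Reg (box (D.Gp.res D.T) D.Gp.O) D.Gp.O
      (fun z : D.T × D.Gp.G => (z.1 : D.Gp.G)⁻¹ * z.2 * D.phi z.1) := by
    have a1 : Reg (box (D.Gp.res D.T) D.Gp.O) D.Gp.O (fun z : D.T × D.Gp.G => (z.1 : D.Gp.G)) :=
      (AlgGroup.reg_val _).comp reg_fst
    exact (a1.inv.mul reg_snd).mul (D.phi_reg.comp a1)
  obtain ⟨c, hc, ec⟩ := torus_expand D.torus.1 (r1 F hFO)
  have ec' : ∀ (t : D.T) (g : D.Gp.G), F ((t : D.Gp.G)⁻¹ * g * D.phi t) =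
      ∑ χ ∈ c.support, (χ.1 t : k) * c χ g := fun t g => ec t g
  -- comparison of coefficients
  have cmp : ∀ (a b : D.Gp.chars D.T → k), (∀ t : D.T, ∑ χ ∈ c.support, (χ.1 t : k) * a χ =
      ∑ χ ∈ c.support, (χ.1 t : k) * b χ) → ∀ χ ∈ c.support, a χ = b χ := by
    intro a b h χ hχ
    have h1 := linearIndependent_iff'.1 (indep_T (D := D)) c.support (fun χ => a χ - b χ) ?_ χ hχ
    · exact sub_eq_zero.1 h1
    · ext t
      rw [Finset.sum_apply, Pi.zero_apply]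
      have h2 := h t
      rw [← sub_eq_zero, ← Finset.sum_sub_distrib] at h2
      rw [← h2]
      refine Finset.sum_congr rfl fun χ _ => ?_
      rw [Pi.smul_apply, smul_eq_mul]
      ring
  have semiT : ∀ χ ∈ c.support, ∀ (s : D.T) (g : D.Gp.G),
      c χ ((s : D.Gp.G)⁻¹ * g * D.phi s) = (χ.1 s : k) * c χ g := by
    intro χ hχ s g
    refine cmp (fun χ => c χ ((s : D.Gp.G)⁻¹ * g * D.phi s)) (fun χ => (χ.1 s : k) * c χ g)
      (fun t => ?_) χ hχ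
    have e1 := ec' t ((s : D.Gp.G)⁻¹ * g * D.phi s)
    have e2 := ec' (s * t) g
    rw [← e1]
    have e3 : ((s * t : D.T) : D.Gp.G)⁻¹ * g * D.phi ((s * t : D.T) : D.Gp.G) =
        (t : D.Gp.G)⁻¹ * ((s : D.Gp.G)⁻¹ * g * D.phi s) * D.phi t := by
      simp [mul_assoc]
    rw [← e3, e2]
    refine Finset.sum_congr rfl fun χ _ => ?_
    rw [map_mul, Units.val_mul]
    ring
  have semiU : ∀ χ ∈ c.support, ∀ x y, x ∈ ν.unip → D.E x y → ∀ g : D.Gp.G,
      c χ (x * g * y⁻¹) = c χ g := by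
    intro χ hχ x y hx e g
    refine cmp (fun χ => c χ (x * g * y⁻¹)) (fun χ => c χ g) (fun t => ?_) χ hχ
    rw [← ec' t, ← ec' t]
    have ht : (t : D.Gp.G) ∈ ν.levi := hT ▸ t.2
    have hx' : (t : D.Gp.G)⁻¹ * x * ((t : D.Gp.G)⁻¹)⁻¹ ∈ ν.unip :=
      Cochar.conj_unip (Subgroup.inv_mem _ ht) hx
    have e' : D.E ((t : D.Gp.G)⁻¹ * x * ((t : D.Gp.G)⁻¹)⁻¹)
        ((D.phi t)⁻¹ * y * ((D.phi t)⁻¹)⁻¹) :=
      E_mul (E_mul (E_inv (E_torus hp t.2)) e) (E_inv (E_inv (E_torus hp t.2)))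
    have := hFi _ _ hx' e' ((t : D.Gp.G)⁻¹ * g * D.phi t)
    rw [← this]
    congr 1
    simp [mul_assoc]
  choose lam hlam using exists_ext hB hT
  have semiB : ∀ χ ∈ c.support, ∀ (b : D.B) (y : D.Gp.G), D.E b y → ∀ g : D.Gp.G,
      c χ (b * g * y⁻¹) = ((lam χ).1 b : k) * c χ g := by
    intro χ hχ b y e g
    obtain ⟨s, hs⟩ := exists_thetaB hB hT b
    have hu : (s : D.Gp.G)⁻¹ * b ∈ ν.unip := hs.div_mem'
    have e1 : D.E ((s : D.Gp.G)⁻¹ * b) ((D.phi s)⁻¹ * y) := E_mul (E_inv (E_torus hp s.2)) e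
    have h1 := semiU χ hχ _ _ hu e1 g
    have h2 := semiT χ hχ s⁻¹ ((s : D.Gp.G)⁻¹ * b * g * ((D.phi s)⁻¹ * y)⁻¹)
    rw [hlam χ b s hs, ← map_inv, ← h1, ← h2]
    congr 1
    simp [mul_assoc]
  refine ⟨∑ χ ∈ c.support, MonoidAlgebra.single (lam χ)
    (fun z : D.Gp.G × D.P => c χ ((z.2 : D.Gp.G)⁻¹ * z.1 * D.phi (D.theta z.2))), ?_, ?_⟩
  · refine Subalgebra.sum_mem _ fun χ hχ => ?_
    intro χ'
    change D.IsSection χ' ((MonoidAlgebra.single (lam χ) (fun z : D.Pts =>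
      c χ ((z.2 : D.Gp.G)⁻¹ * z.1 * D.phi (D.theta z.2)))).coeff χ')
    rw [MonoidAlgebra.coeff_single, Finsupp.single_apply]
    split_ifs with h
    · rw [← h]
      refine isSection_ext hp (hc χ) (semiB χ hχ) fun v hv g => ?_
      have := semiU χ hχ 1 v (Subgroup.one_mem _) (E_unip hv) g
      rwa [one_mul] at this
    · exact IsSection.zero χ'
  · rw [map_sum]
    ext g
    rw [Finset.sum_apply]
    have h1 : ∀ χ ∈ c.support, D.ev0 (MonoidAlgebra.single (lam χ)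
        (fun z : D.Gp.G × D.P => c χ ((z.2 : D.Gp.G)⁻¹ * z.1 * D.phi (D.theta z.2)))) g =
        c χ g := by
      intro χ _
      have h2 : D.ev0 (MonoidAlgebra.single (lam χ)
        (fun z : D.Gp.G × D.P => c χ ((z.2 : D.Gp.G)⁻¹ * z.1 * D.phi (D.theta z.2)))) =
        (pull (fun g : D.Gp.G => (g, (1 : D.P)))) ((MonoidAlgebra.lift
        (D.Gp.G × D.P → k) (D.Gp.G × D.P → k) (D.Gp.chars D.B) 1) (MonoidAlgebra.single (lam χ)
        (fun z : D.Gp.G × D.P => c χ ((z.2 : D.Gp.G)⁻¹ * z.1 * D.phi (D.theta z.2))))) := rfl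
      rw [h2, MonoidAlgebra.lift_single, MonoidHom.one_apply, smul_eq_mul, mul_one]
      change c χ (((1 : D.P) : D.Gp.G)⁻¹ * g * D.phi (D.theta 1)) = c χ g
      rw [theta_one, map_one, mul_one]
      simp
    rw [Finset.sum_congr rfl h1]
    have h3 := ec' 1 g
    simp only [map_one, Units.val_one, one_mul] at h3
    rw [← h3]
    simp

/-- **Main theorem.** -/
theorem main (hp : 0 < p) (hPr : ProductTheorem k) (hLe : LeviTheorem k) (hBo : BorelTheorem k)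
    (hGr : GrosshansTheorem k) (D : ZipDatum k p) : D.Rzip.FG := by
  obtain ⟨ν, hB, hT, hU⟩ := hBo D.Gp D.mu.inv D.B D.T D.red D.borel D.torus D.T_le_B
    (by rw [Cochar.levi_inv]; exact D.T_le_L) D.B_le_P
  have hν : ∀ t, ν.hom t ∈ D.mu.levi := fun t => D.T_le_L (hT ▸ ν.mem_self t)
  have hUB : ν.unip ≤ D.B := by
    rw [hB]
    exact fun x hx => ⟨1, hx⟩
  have h1 := R1_fg D hp hPr hLe hGr hν hU
  set f : D.Rzip →ₐ[k] D.R1 ν := ((D.ev0).comp D.Rzip.val).codRestrict (D.R1 ν)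
    (fun r => ev0_mem hT hUB r.2) with hf
  have hinj : Function.Injective f := by
    rw [injective_iff_map_eq_zero]
    intro r hr
    exact Subtype.ext (ev0_inj hp hB hT r.2 (congrArg Subtype.val hr))
  have hsurj : Function.Surjective f := by
    rintro ⟨F, hF⟩
    obtain ⟨r, hr, e⟩ := ev0_surj hp hB hT hF
    exact ⟨⟨r, hr⟩, Subtype.ext e⟩
  have e := AlgEquiv.ofBijective f ⟨hinj, hsurj⟩
  have h2 : Algebra.FiniteType k (D.R1 ν) := (Subalgebra.fg_iff_finiteType _).1 h1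
  exact (Subalgebra.fg_iff_finiteType _).2 (h2.equiv e.symm)

end ZipDatum

end Pool.Agent.Q173.GZ
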