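import Pool.Agent.Q173.GZ.Lim

/-!
# Finite generation of algebras of invariant functions
-/

set_option autoImplicit false

namespace Pool.Agent.Q173.GZ

variable {k : Type} [Field k]

section act

variable {H X : Type} [Group H] (α : H → X → X) (h1 : ∀ x, α 1 x = x)
  (hm : ∀ h h' x, α (h * h') x = α h' (α h x)) (A : Subalgebra k (X → k))
  (st : ∀ h, ∀ F ∈ A, F ∘ α h ∈ A)

/-- composition with `α h` -/
def fnHom (h : H) : A →ₐ[k] A :=
  ((pull (α h)).comp A.val).codRestrict A (fun F => st h F.1 F.2)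

omit [Group H] in
lemma fnHom_coe (h : H) (F : A) : ((fnHom α A st h F : A) : X → k) = F.1 ∘ α h := rfl

/-- the action on the functions -/
def fnAct : H →* (A ≃ₐ[k] A) where
  toFun h := AlgEquiv.ofAlgHom (fnHom α A st h) (fnHom α A st h⁻¹)
    (by
      ext F x
      simp only [AlgHom.comp_apply, AlgHom.id_apply, fnHom_coe, Function.comp_apply]
      rw [← hm, mul_inv_cancel, h1])
    (by
      ext F x
      simp only [AlgHom.comp_apply, AlgHom.id_apply, fnHom_coe, Function.comp_apply]
      rw [← hm, inv_mul_cancel, h1])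
  map_one' := by
    ext F x
    change F.1 (α 1 x) = F.1 x
    rw [h1]
  map_mul' := by
    intro h h'
    ext F x
    change F.1 (α (h * h') x) = F.1 (α h' (α h x))
    rw [hm]

lemma fnAct_coe (h : H) (F : A) : ((fnAct α h1 hm A st h F : A) : X → k) = F.1 ∘ α h := rfl

/-- the invariant functions -/
def invFns (S : Subgroup H) : Subalgebra k (X → k) where
  carrier := {F | F ∈ A ∧ ∀ s ∈ S, F ∘ α s = F}
  mul_mem' := by
    rintro a b ⟨ha, ha'⟩ ⟨hb, hb'⟩
    refine ⟨A.mul_mem ha hb, fun s hs => ?_⟩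
    rw [Pi.mul_comp, ha' s hs, hb' s hs]
  add_mem' := by
    rintro a b ⟨ha, ha'⟩ ⟨hb, hb'⟩
    refine ⟨A.add_mem ha hb, fun s hs => ?_⟩
    rw [Pi.add_comp, ha' s hs, hb' s hs]
  algebraMap_mem' := fun r => ⟨A.algebraMap_mem r, fun _ _ => rfl⟩

end act

/-- the action on functions is rational -/
lemma rational_fnAct {G H : AlgGroup k} (α : H.G → G.G → G.G) (h1 : ∀ x, α 1 x = x)
    (hm : ∀ h h' x, α (h * h') x = α h' (α h x)) (hα : Reg (box H.O G.O) G.O (fun z => α z.1 z.2))
    (A : Subalgebra k (G.G → k)) (hA : A ≤ G.O) (st : ∀ h, ∀ F ∈ A, F ∘ α h ∈ A) :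
    Rational H (fnAct α h1 hm A st) := by
  intro F
  obtain ⟨n, a, b, ha, hb, e⟩ := box_sum (hα F.1 (hA F.2))
  have e' : ∀ h, ((fnAct α h1 hm A st h F : A) : G.G → k) = ∑ i, (a i h) • b i := by
    intro h
    rw [fnAct_coe]
    ext x
    have := e h x
    change F.1 (α h x) = _ at this
    rw [Function.comp_apply, this, Finset.sum_apply]
    rfl
  constructor
  · have h2 : (Submodule.map A.val.toLinearMap
        (Submodule.span k (Set.range fun h => fnAct α h1 hm A st h F))) ≤
        Submodule.span k (Set.range b) := by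
      rw [Submodule.map_span, Submodule.span_le]
      rintro _ ⟨_, ⟨h, rfl⟩, rfl⟩
      change ((fnAct α h1 hm A st h F : A) : G.G → k) ∈ Submodule.span k (Set.range b)
      rw [e']
      exact Submodule.sum_mem _ fun i _ => Submodule.smul_mem _ _
        (Submodule.subset_span ⟨i, rfl⟩)
    have h3 : (Submodule.span k (Set.range b)).FG := Submodule.fg_span (Set.finite_range b)
    have h4 : (Submodule.map A.val.toLinearMap
        (Submodule.span k (Set.range fun h => fnAct α h1 hm A st h F))).FG := by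
      have : Module.Finite k (Submodule.span k (Set.range b)) := Module.Finite.iff_fg.2 h3
      have h5 : Module.Finite k (Submodule.map A.val.toLinearMap
        (Submodule.span k (Set.range fun h => fnAct α h1 hm A st h F))) :=
        Submodule.finiteDimensional_of_le h2
      exact Module.Finite.iff_fg.1 h5
    exact Submodule.fg_of_fg_map_injective _ (fun x y hxy => Subtype.ext hxy) h4
  · intro ψ
    obtain ⟨ψ', hψ⟩ := LinearMap.exists_extend (p := Subalgebra.toSubmodule A) ψ
    have h5 : ∀ x : A, ψ' (x : G.G → k) = ψ x := fun x => congrArg (fun l => l x) hψ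
    have h6 : (fun h => ψ (fnAct α h1 hm A st h F)) = ∑ i, ψ' (b i) • a i := by
      ext h
      rw [← h5, e', map_sum, Finset.sum_apply]
      refine Finset.sum_congr rfl fun i _ => ?_
      rw [map_smul, Pi.smul_apply, smul_eq_mul, smul_eq_mul, mul_comm]
    rw [h6]
    exact Subalgebra.sum_mem _ fun i _ => Subalgebra.smul_mem _ (ha i) _

/-- **Invariants of unipotent radicals on function algebras.** -/
lemma fg_invFns (hGr : GrosshansTheorem k) {G H : AlgGroup k} (hH : H.Reductive) (ν : Cochar H)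
    (α : H.G → G.G → G.G) (h1 : ∀ x, α 1 x = x)
    (hm : ∀ h h' x, α (h * h') x = α h' (α h x)) (hα : Reg (box H.O G.O) G.O (fun z => α z.1 z.2))
    (A : Subalgebra k (G.G → k)) (hA : A ≤ G.O) (st : ∀ h, ∀ F ∈ A, F ∘ α h ∈ A) (hfg : A.FG) :
    (invFns α A ν.unip).FG := by
  have h2 := hGr H ν hH A (fnAct α h1 hm A st) ((Subalgebra.fg_iff_finiteType A).1 hfg)
    (rational_fnAct α h1 hm hα A hA st)
  have h3 := h2.map A.val
  have h4 : (invariants (fnAct α h1 hm A st) ν.unip).map A.val = invFns α A ν.unip := by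
    apply Subalgebra.ext
    intro F
    constructor
    · rintro ⟨F', hF', rfl⟩
      exact ⟨F'.2, fun s hs => congrArg Subtype.val (hF' s hs)⟩
    · rintro ⟨hF, hF'⟩
      exact ⟨⟨F, hF⟩, fun s hs => Subtype.ext (hF' s hs), rfl⟩
  rw [← h4]
  exact h3

/-- the cocharacter `(ν, ν')` of a product -/
def Cochar.pair {G H : AlgGroup k} (ν : Cochar G) (ν' : Cochar H) : Cochar (G.prod H) where
  hom := ν.hom.prod ν'.hom
  reg := Reg.pair (p := ν.hom) (q := ν'.hom) ν.reg ν'.reg

lemma Cochar.mem_unip_pair {G H : AlgGroup k} {ν : Cochar G} {ν' : Cochar H} {a : G.G} {b : H.G} :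
    ((a, b) : (G.prod H).G) ∈ (ν.pair ν').unip ↔ a ∈ ν.unip ∧ b ∈ ν'.unip := by
  constructor
  · intro h
    exact ⟨fun f hf => h _ (reg_fst f hf), fun f hf => h _ (reg_snd f hf)⟩
  · rintro ⟨h, h'⟩
    exact AlgGroup.HasLim.prod h h'

lemma Cochar.mem_unip_sub {G : AlgGroup k} {ν : Cochar G} {S : Subgroup G.G} {hS : G.Closed S}
    {h : ∀ t, ν.hom t ∈ S} {l : S} : (l : (G.sub S hS).G) ∈ (ν.sub S hS h).unip ↔
      (l : G.G) ∈ ν.unip := by
  constructor
  · intro hl f hf
    exact hl _ ⟨f, hf, rfl⟩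
  · rintro hl _ ⟨f, hf, rfl⟩
    exact hl f hf

end Pool.Agent.Q173.GZ
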