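import Pool.Agent.Q173.GZ.Zip

/-!
# Limits are morphisms; the Levi projections
-/

set_option autoImplicit false

namespace Pool.Agent.Q173.GZ

variable {k : Type} [Field k]

/-- a linear functional on the functions on `k ∖ 0` which is the value at zero on polynomials -/
lemma exists_valueAtZero [Infinite k] : ∃ ct : (kˣ → k) →ₗ[k] k,
    ∀ P : Polynomial k, ct (fun t => P.eval (t : k)) = P.eval 0 := by
  set ev : Polynomial k →ₗ[k] (kˣ → k) :=
    { toFun := fun P => fun t => P.eval (t : k)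
      map_add' := fun P Q => by ext t; simp
      map_smul' := fun c P => by ext t; simp } with hev
  have hinj : Function.Injective ev := by
    intro P Q h
    exact AlgGroup.poly_unique fun t => congrFun h t
  obtain ⟨g, hg⟩ := ev.exists_leftInverse_of_injective (LinearMap.ker_eq_bot.2 hinj)
  refine ⟨(Polynomial.leval (0 : k)).comp g, fun P => ?_⟩
  have : g (ev P) = P := by
    have := congrArg (fun l => l P) hg
    simpa using this
  change Polynomial.eval 0 (g (ev P)) = _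
  rw [this]

variable {G : AlgGroup k}

/-- the limit of `ν(t) g ν(t)⁻¹` is a morphism in `g` -/
lemma lim_reg [Infinite k] (ν : kˣ → G.G) {f : G.G → k} (hf : f ∈ G.O) : ∃ f₀ ∈ G.O,
    ∀ g l, G.HasLim (fun t => ν t * g * (ν t)⁻¹) l → f l = f₀ g := by
  obtain ⟨ct, hct⟩ := exists_valueAtZero (k := k)
  have h1 : Reg (box G.O G.O) G.O (fun z : G.G × G.G => z.1 * z.2 * z.1⁻¹) :=
    (reg_fst.mul reg_snd).mul reg_fst.inv
  obtain ⟨n, a, b, ha, hb, e⟩ := box_sum (h1 f hf)
  refine ⟨∑ i, ct (fun t => a i (ν t)) • b i, ?_, fun g l h => ?_⟩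
  · exact Subalgebra.sum_mem _ fun i _ => Subalgebra.smul_mem _ (hb i) _
  · obtain ⟨P, hP, hP0⟩ := h f hf
    have h2 : (fun t : kˣ => P.eval (t : k)) = ∑ i, (b i g) • (fun t : kˣ => a i (ν t)) := by
      ext t
      rw [hP, Finset.sum_apply]
      have := e (ν t) g
      change f (ν t * g * (ν t)⁻¹) = _ at this
      rw [this]
      refine Finset.sum_congr rfl fun i _ => ?_
      rw [Pi.smul_apply, smul_eq_mul, mul_comm]
    rw [← hP0, ← hct P, h2, map_sum, Finset.sum_apply]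
    refine Finset.sum_congr rfl fun i _ => ?_
    rw [map_smul, Pi.smul_apply, smul_eq_mul, smul_eq_mul, mul_comm]

namespace Cochar

variable {ν : Cochar G}

lemma Lim.mul {g h l m : G.G} (a : ν.Lim g l) (b : ν.Lim h m) : ν.Lim (g * h) (l * m) := by
  have := AlgGroup.HasLim.mul a b
  unfold Lim
  simpa [mul_assoc] using this

lemma Lim.inv {g l : G.G} (a : ν.Lim g l) : ν.Lim g⁻¹ l⁻¹ := by
  have := AlgGroup.HasLim.inv a
  unfold Lim
  simpa [mul_assoc] using this

lemma Lim.unique [Infinite k] {g l m : G.G} (a : ν.Lim g l) (b : ν.Lim g m) : l = m :=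
  AlgGroup.HasLim.unique a b

lemma lim_levi {g : G.G} (h : g ∈ ν.levi) : ν.Lim g g := by
  have : (fun t => ν.hom t * g * (ν.hom t)⁻¹) = fun _ => g := by
    ext t
    exact mul_inv_eq_iff_eq_mul.2 (h t)
  unfold Lim
  rw [this]
  exact AlgGroup.hasLim_const g

/-- conjugation by an element commuting with `ν` -/
lemma Lim.conj {g l s : G.G} (a : ν.Lim g l) (h : s ∈ ν.levi) : ν.Lim (s * g * s⁻¹) (s * l * s⁻¹) :=
  ((lim_levi h).mul a).mul (lim_levi h).inv

/-- the limit is in the Levi subgroup -/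
lemma Lim.mem_levi [Infinite k] {g l : G.G} (a : ν.Lim g l) : l ∈ ν.levi := by
  intro s
  have h1 : ν.Lim g (ν.hom s * l * (ν.hom s)⁻¹) := by
    have h2 : G.HasLim (fun t => ν.hom s * (ν.hom (s⁻¹ * t) * g * (ν.hom (s⁻¹ * t))⁻¹) *
        (ν.hom s)⁻¹) (ν.hom s * l * (ν.hom s)⁻¹) :=
      ((AlgGroup.hasLim_const _).mul (AlgGroup.HasLim.scale a s⁻¹)).mul (AlgGroup.hasLim_const _)
    have h3 : (fun t => ν.hom s * (ν.hom (s⁻¹ * t) * g * (ν.hom (s⁻¹ * t))⁻¹) * (ν.hom s)⁻¹) =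
        fun t => ν.hom t * g * (ν.hom t)⁻¹ := by
      ext t
      have : ν.hom t = ν.hom s * ν.hom (s⁻¹ * t) := by rw [← map_mul, mul_inv_cancel_left]
      rw [this]
      simp [mul_assoc]
    rw [h3] at h2
    exact h2
  have := h1.unique a
  exact mul_inv_eq_iff_eq_mul.1 this

lemma Lim.div_mem [Infinite k] {g l : G.G} (a : ν.Lim g l) : g * l⁻¹ ∈ ν.unip := by
  have := a.mul (lim_levi a.mem_levi).inv
  rw [mul_inv_cancel] at this
  exact this

lemma Lim.div_mem' [Infinite k] {g l : G.G} (a : ν.Lim g l) : l⁻¹ * g ∈ ν.unip := by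
  have := (lim_levi a.mem_levi).inv.mul a
  rw [inv_mul_cancel] at this
  exact this

lemma lim_one : ν.Lim (1 : G.G) 1 := lim_levi (Subgroup.one_mem _)

/-- `Lim` for commuting cocharacters `μ`, `ν`: the `μ`-limit of an element with `ν`-limit one has
`ν`-limit one -/
lemma Lim.comm_unip [Infinite k] {μ : Cochar G} (hc : ∀ s, ν.hom s ∈ μ.levi) {g l : G.G}
    (a : μ.Lim g l) (b : ν.Lim g 1) : ν.Lim l 1 := by
  intro f hf
  obtain ⟨f₀, h0, h1⟩ := lim_reg μ.hom hf
  obtain ⟨P, hP, hP0⟩ := b f₀ h0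
  refine ⟨P, fun s => ?_, ?_⟩
  · rw [hP]
    exact (h1 _ _ (a.conj (hc s))).symm
  · rw [hP0]
    exact (h1 1 1 lim_one).symm

/-- for commuting cocharacters: `μ`-limits of elements of `P_+(ν)` are in `P_+(ν)` -/
lemma Lim.comm_para [Infinite k] {μ : Cochar G} (hc : ∀ s, ν.hom s ∈ μ.levi) {g l m m' : G.G}
    (a : μ.Lim g l) (b : ν.Lim g m) (c : μ.Lim m m') : ν.Lim l m' := by
  intro f hf
  obtain ⟨f₀, h0, h1⟩ := lim_reg μ.hom hf
  obtain ⟨P, hP, hP0⟩ := b f₀ h0
  refine ⟨P, fun s => ?_, ?_⟩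
  · rw [hP]
    exact (h1 _ _ (a.conj (hc s))).symm
  · rw [hP0]
    exact (h1 _ _ c).symm

end Cochar

end Pool.Agent.Q173.GZ
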