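import Pool.Agent.Q173.GZ.Unip

/-!
# Finite generation of the ring of automorphic forms on `G`-zips
-/

set_option autoImplicit false

namespace Pool.Agent.Q173.GZ

variable {k : Type} [Field k] [IsAlgClosed k]

/-- expansion of a regular function on `T × X` into characters of the torus `T` -/
lemma torus_expand {k : Type} [Field k] {G : AlgGroup k} {T : Subgroup G.G} (hT : G.Torus T)
    {X : Type} {O : Subalgebra k (X → k)} {Φ : T × X → k} (hΦ : Φ ∈ box (G.res T) O) :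
    ∃ c : G.chars T →₀ (X → k), (∀ χ, c χ ∈ O) ∧
      ∀ t x, Φ (t, x) = c.sum fun χ f => (χ.1 t : k) * f x := by
  classical
  obtain ⟨n, a, b, ha, hb, e⟩ := box_sum hΦ
  have h1 : ∀ a ∈ G.res T, ∀ b ∈ O, ∃ c : G.chars T →₀ (X → k), (∀ χ, c χ ∈ O) ∧
      ∀ t x, a t * b x = c.sum fun χ f => (χ.1 t : k) * f x := by
    intro a ha b hb
    have ha' := hT.2.2 a ha
    clear ha
    induction ha' using Submodule.span_induction with
    | mem u hu =>
      obtain ⟨χ, hχ, rfl⟩ := hu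
      refine ⟨Finsupp.single ⟨χ, hχ⟩ b, fun χ' => ?_, fun t x => ?_⟩
      · rw [Finsupp.single_apply]
        split_ifs
        · exact hb
        · exact O.zero_mem
      · rw [Finsupp.sum_single_index]
        simp
    | zero => exact ⟨0, fun _ => O.zero_mem, fun t x => by simp⟩
    | add u v _ _ hu hv =>
      obtain ⟨c, hc, ec⟩ := hu
      obtain ⟨d, hd, ed⟩ := hv
      refine ⟨c + d, fun χ => O.add_mem (hc χ) (hd χ), fun t x => ?_⟩
      rw [Finsupp.sum_add_index', Pi.add_apply, add_mul, ec, ed]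
      · intro χ
        simp
      · intro χ f g
        rw [Pi.add_apply, mul_add]
    | smul r u _ hu =>
      obtain ⟨c, hc, ec⟩ := hu
      refine ⟨r • c, fun χ => O.smul_mem (hc χ) r, fun t x => ?_⟩
      rw [Finsupp.sum_smul_index', Pi.smul_apply, smul_eq_mul, mul_assoc, ec, Finsupp.mul_sum]
      · refine Finsupp.sum_congr fun χ _ => ?_
        rw [Pi.smul_apply, smul_eq_mul]
        ring
      · intro χ
        simp
  choose c hc ec using fun i => h1 (a i) (ha i) (b i) (hb i)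
  refine ⟨∑ i, c i, fun χ => ?_, fun t x => ?_⟩
  · rw [Finsupp.finsetSum_apply]
    exact O.sum_mem fun i _ => hc i χ
  · rw [e, ← Finsupp.sum_finsetSum_index]
    · exact Finset.sum_congr rfl fun i _ => ec i t x
    · intro χ
      simp
    · intro χ f g
      rw [Pi.add_apply, mul_add]

namespace ZipDatum

variable {p : ℕ} {D : ZipDatum k p} {ν : Cochar D.Gp}

/-- characters of the Borel subgroup are trivial on the unipotent radical -/
lemma char_unip (hT : D.T = ν.levi) (χ : D.Gp.chars D.B) (b : D.B) (hb : (b : D.Gp.G) ∈ ν.unip) :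
    χ.1 b = 1 := by
  obtain ⟨f, hf, e⟩ := χ.2
  have e' : ∀ s : D.B, f s = (χ.1 s : k) := fun s => congrFun e s
  obtain ⟨P, hP, hP0⟩ := hb f hf
  have h1 : ∀ t : kˣ, f (ν.hom t * b * (ν.hom t)⁻¹) = (χ.1 b : k) := by
    intro t
    have ht : ν.hom t ∈ D.B := D.T_le_B (hT ▸ ν.mem_self t)
    have := e' (⟨ν.hom t, ht⟩ * b * (⟨ν.hom t, ht⟩)⁻¹)
    rw [map_mul, map_mul, map_inv, mul_comm (χ.1 _) (χ.1 b), mul_inv_cancel_right] at this
    exact this
  have h2 : P = Polynomial.C (χ.1 b : k) := AlgGroup.poly_unique fun t => by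
    rw [hP, h1, Polynomial.eval_C]
  have h3 := e' 1
  rw [h2, Polynomial.eval_C] at hP0
  rw [map_one] at h3
  ext
  rw [hP0]
  exact h3

variable (D) in
/-- the Levi projection of `P` -/
noncomputable def theta (x : D.P) : D.Gp.G := Classical.choose x.2

lemma theta_spec (x : D.P) : D.mu.inv.Lim (x : D.Gp.G) (D.theta x) := Classical.choose_spec x.2

lemma theta_reg : Reg (D.Gp.res D.P) D.Gp.O D.theta := by
  intro f hf
  obtain ⟨f₀, h0, h1⟩ := lim_reg D.mu.inv.hom hf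
  exact ⟨f₀, h0, funext fun x => (h1 _ _ (theta_spec x)).symm⟩

lemma theta_eq {x : D.P} {l : D.Gp.G} (h : D.mu.inv.Lim (x : D.Gp.G) l) : D.theta x = l :=
  (theta_spec x).unique h

lemma theta_mul (x z : D.P) : D.theta (x * z) = D.theta x * D.theta z :=
  theta_eq ((theta_spec x).mul (theta_spec z))

lemma theta_one : D.theta 1 = 1 := theta_eq Cochar.lim_one

lemma theta_levi (x : D.P) : D.theta x ∈ D.mu.levi := by
  have := (theta_spec x).mem_levi
  rwa [Cochar.levi_inv] at this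

lemma E_theta (hp : 0 < p) (x : D.P) : D.E x (D.phi (D.theta x)) :=
  ⟨_, theta_spec x, Cochar.lim_levi (ν := D.mu') (D.phi_levi hp (theta_levi x))⟩

lemma E_mul {x y x' y' : D.Gp.G} (h : D.E x y) (h' : D.E x' y') : D.E (x * x') (y * y') := by
  obtain ⟨l, a, b⟩ := h
  obtain ⟨l', a', b'⟩ := h'
  refine ⟨l * l', Cochar.Lim.mul (ν := D.mu.inv) a a', ?_⟩
  rw [map_mul]
  exact Cochar.Lim.mul (ν := D.mu') b b'

lemma E_inv {x y : D.Gp.G} (h : D.E x y) : D.E x⁻¹ y⁻¹ := by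
  obtain ⟨l, a, b⟩ := h
  refine ⟨l⁻¹, Cochar.Lim.inv (ν := D.mu.inv) a, ?_⟩
  rw [map_inv]
  exact Cochar.Lim.inv (ν := D.mu') b

lemma E_torus (hp : 0 < p) {t : D.Gp.G} (ht : t ∈ D.T) : D.E t (D.phi t) := by
  have h := D.T_le_L ht
  refine ⟨t, Cochar.lim_levi (ν := D.mu.inv) ?_, Cochar.lim_levi (ν := D.mu') (D.phi_levi hp h)⟩
  rw [Cochar.levi_inv]
  exact h

lemma E_unip {v : D.Gp.G} (hv : v ∈ D.mu'.unip) : D.E 1 v := by
  refine ⟨1, Cochar.lim_one (ν := D.mu.inv), ?_⟩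
  rw [map_one]
  exact hv

/-- evaluation at `x = 1` and sum over all weights -/
noncomputable def ev0 (D : ZipDatum k p) :
    MonoidAlgebra (D.Gp.G × D.P → k) (D.Gp.chars D.B) →ₐ[k] (D.Gp.G → k) :=
  (pull (fun g : D.Gp.G => (g, (1 : D.P)))).comp
    ((MonoidAlgebra.lift (D.Gp.G × D.P → k) (D.Gp.G × D.P → k) (D.Gp.chars D.B) 1).restrictScalars k)

lemma ev0_apply (r : MonoidAlgebra (D.Gp.G × D.P → k) (D.Gp.chars D.B)) (g : D.Gp.G) :
    D.ev0 r g = ∑ χ ∈ r.coeff.support, r.coeff χ (g, 1) := by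
  have : D.ev0 r = (pull (fun g : D.Gp.G => (g, (1 : D.P)))) ((MonoidAlgebra.lift
    (D.Gp.G × D.P → k) (D.Gp.G × D.P → k) (D.Gp.chars D.B) 1) r) := rfl
  rw [this, MonoidAlgebra.lift_apply, Finsupp.sum, map_sum, Finset.sum_apply]
  refine Finset.sum_congr rfl fun χ _ => ?_
  rw [MonoidHom.one_apply, smul_eq_mul, mul_one]
  rfl

lemma sec_semi {χ : D.Gp.chars D.B} {F : D.Gp.G × D.P → k} (h : D.IsSection χ F) (b : D.B)
    {y : D.Gp.G} (e : D.E b y) (g : D.Gp.G) : F (b * g * y⁻¹, 1) = (χ.1 b : k) * F (g, 1) := by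
  set b' : D.P := ⟨b, D.B_le_P b.2⟩ with hb'
  have h1 := h.2.2 b' y g (1 * ⟨(b⁻¹ : D.B), D.B_le_P (b⁻¹).2⟩) e
  rw [h.2.1 g 1 b⁻¹] at h1
  have h2 : b' * (1 * ⟨(b⁻¹ : D.B), D.B_le_P (b⁻¹).2⟩) = 1 := by
    apply Subtype.ext
    simp [hb']
  rw [h2] at h1
  rw [show F (b * g * y⁻¹, 1) = _ from h1, map_inv, inv_inv]

lemma ev0_mem (hT : D.T = ν.levi) (hU : ν.unip ≤ D.B)
    {r : MonoidAlgebra (D.Gp.G × D.P → k) (D.Gp.chars D.B)} (hr : r ∈ D.Rzip) :
    D.ev0 r ∈ D.R1 ν := by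
  constructor
  · have : D.ev0 r = ∑ χ ∈ r.coeff.support, pull (fun g : D.Gp.G => (g, (1 : D.P))) (r.coeff χ) := by
      ext g
      rw [ev0_apply, Finset.sum_apply]
      rfl
    rw [this]
    refine Subalgebra.sum_mem _ fun χ _ => ?_
    have h1 : Reg D.Gp.O (box D.Gp.O (D.Gp.res D.P)) (fun g : D.Gp.G => (g, (1 : D.P))) :=
      Reg.pair reg_id (reg_const _)
    exact h1 _ (hr χ).1
  · intro x y hx e g
    rw [ev0_apply, ev0_apply]
    refine Finset.sum_congr rfl fun χ _ => ?_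
    have := sec_semi (hr χ) ⟨x, hU hx⟩ e g
    rw [char_unip hT χ ⟨x, hU hx⟩ hx, Units.val_one, one_mul] at this
    exact this

end ZipDatum

end Pool.Agent.Q173.GZ
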