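import Pool.Agent.Q173.GZ.Inv

/-!
# The algebra of functions invariant under the unipotent radical of the zip flag group
-/

set_option autoImplicit false

namespace Pool.Agent.Q173.GZ

variable {k : Type} [Field k] [IsAlgClosed k]

lemma Cochar.levi_inv {k : Type} [Field k] {G : AlgGroup k} (μ : Cochar G) :
    μ.inv.levi = μ.levi := by
  ext g
  constructor
  · intro h t
    have := h t⁻¹
    change μ.hom (t⁻¹)⁻¹ * g = g * μ.hom (t⁻¹)⁻¹ at this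
    rwa [inv_inv] at this
  · intro h t
    exact h t⁻¹

lemma Cochar.mem_self {k : Type} [Field k] {G : AlgGroup k} (ν : Cochar G) (t : kˣ) :
    ν.hom t ∈ ν.levi := fun s => by rw [← map_mul, ← map_mul, mul_comm]

lemma Cochar.comm {k : Type} [Field k] {G : AlgGroup k} {ν μ : Cochar G}
    (h : ∀ s, ν.hom s ∈ μ.levi) (t : kˣ) : μ.hom t ∈ ν.levi := fun s => (h s t).symm

/-- conjugation preserves the unipotent part -/
lemma Cochar.conj_unip {k : Type} [Field k] {G : AlgGroup k} {ν : Cochar G} {s u : G.G}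
    (hs : s ∈ ν.levi) (hu : u ∈ ν.unip) : s * u * s⁻¹ ∈ ν.unip := by
  have h := Cochar.Lim.conj (ν := ν) (g := u) (l := 1) hu hs
  have h2 : s * 1 * s⁻¹ = 1 := by simp
  rw [h2] at h
  exact h

namespace ZipDatum

variable {p : ℕ} (D : ZipDatum k p)

lemma phi_levi (hp : 0 < p) {l : D.Gp.G} (hl : l ∈ D.mu.levi) : D.phi l ∈ D.mu'.levi := by
  intro t
  obtain ⟨z, hz⟩ := IsAlgClosed.exists_pow_nat_eq (t : k) hp
  have hz0 : z ≠ 0 := by
    rintro rfl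
    rw [zero_pow hp.ne'] at hz
    exact t.ne_zero hz.symm
  have ht : t = (Units.mk0 z hz0) ^ p := by
    ext
    rw [Units.val_pow_eq_pow_val, Units.val_mk0, hz]
  rw [ht, D.frob, ← map_mul, hl, map_mul]

/-- the functions invariant under the pairs `(x, y) ∈ E` with `x` in the unipotent radical of the
Borel subgroup `P_+(ν)` -/
def R1 (ν : Cochar D.Gp) : Subalgebra k (D.Gp.G → k) where
  carrier := {F | F ∈ D.Gp.O ∧ ∀ x y, x ∈ ν.unip → D.E x y → ∀ g, F (x * g * y⁻¹) = F g}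
  mul_mem' := by
    rintro a b ⟨ha, ha'⟩ ⟨hb, hb'⟩
    exact ⟨D.Gp.O.mul_mem ha hb, fun x y hx he g => by
      rw [Pi.mul_apply, Pi.mul_apply, ha' x y hx he, hb' x y hx he]⟩
  add_mem' := by
    rintro a b ⟨ha, ha'⟩ ⟨hb, hb'⟩
    exact ⟨D.Gp.O.add_mem ha hb, fun x y hx he g => by
      rw [Pi.add_apply, Pi.add_apply, ha' x y hx he, hb' x y hx he]⟩
  algebraMap_mem' := fun r => ⟨D.Gp.O.algebraMap_mem r, fun _ _ _ _ _ => rfl⟩

theorem R1_fg (hp : 0 < p) (hPr : ProductTheorem k) (hLe : LeviTheorem k)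
    (hGr : GrosshansTheorem k) {ν : Cochar D.Gp} (hν : ∀ t, ν.hom t ∈ D.mu.levi)
    (hU : D.mu.inv.unip ≤ ν.unip) : (D.R1 ν).FG := by
  -- first step
  set α₁ : (D.Gp.prod D.Gp).G → D.Gp.G → D.Gp.G := fun h g => h.1⁻¹ * g * h.2 with hα₁
  have r₁ : Reg (box (D.Gp.prod D.Gp).O D.Gp.O) D.Gp.O (fun z => α₁ z.1 z.2) := by
    have a1 : Reg (box (D.Gp.prod D.Gp).O D.Gp.O) (D.Gp.prod D.Gp).O Prod.fst := reg_fst
    have a2 : Reg (D.Gp.prod D.Gp).O D.Gp.O (Prod.fst : D.Gp.G × D.Gp.G → D.Gp.G) := reg_fst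
    have a3 : Reg (D.Gp.prod D.Gp).O D.Gp.O (Prod.snd : D.Gp.G × D.Gp.G → D.Gp.G) := reg_snd
    exact ((a2.comp a1).inv.mul reg_snd).mul (a3.comp a1)
  have st₁ : ∀ h, ∀ F ∈ D.Gp.O, F ∘ α₁ h ∈ D.Gp.O := by
    intro h F hF
    exact (((reg_const (h.1⁻¹)).mul reg_id).mul (reg_const h.2) :
      Reg D.Gp.O D.Gp.O (fun g => h.1⁻¹ * g * h.2)) F hF
  set A0 := invFns α₁ D.Gp.O (D.mu.inv.pair D.mu').unip with hA0
  have f₁ : A0.FG := fg_invFns hGr (hPr _ _ D.red D.red) (D.mu.inv.pair D.mu') α₁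
    (fun x => by
      change (1 : D.Gp.G)⁻¹ * x * 1 = x
      simp) (fun h h' x => by
      change (h.1 * h'.1)⁻¹ * x * (h.2 * h'.2) = h'.1⁻¹ * (h.1⁻¹ * x * h.2) * h'.2
      simp [mul_assoc]) r₁ D.Gp.O le_rfl st₁ D.Gp.fg
  have memA0 : ∀ F : D.Gp.G → k, F ∈ A0 ↔ F ∈ D.Gp.O ∧ ∀ u ∈ D.mu.inv.unip, ∀ v ∈ D.mu'.unip,
      ∀ g, F (u⁻¹ * g * v) = F g := by
    intro F
    constructor
    · rintro ⟨h, h'⟩
      refine ⟨h, fun u hu v hv g => ?_⟩
      exact congrFun (h' (u, v) (Cochar.mem_unip_pair.2 ⟨hu, hv⟩)) g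
    · rintro ⟨h, h'⟩
      refine ⟨h, ?_⟩
      rintro ⟨u, v⟩ huv
      obtain ⟨hu, hv⟩ := Cochar.mem_unip_pair.1 huv
      ext g
      exact h' u hu v hv g
  -- second step
  set L : AlgGroup k := D.Gp.sub D.mu.levi D.mu.levi_closed with hL
  set α₂ : L.G → D.Gp.G → D.Gp.G := fun l g => (l.1)⁻¹ * g * D.phi l.1 with hα₂
  have r₂ : Reg (box L.O D.Gp.O) D.Gp.O (fun z => α₂ z.1 z.2) := by
    have a1 : Reg (box L.O D.Gp.O) L.O Prod.fst := reg_fst
    have a2 : Reg L.O D.Gp.O (fun l : D.mu.levi => (l : D.Gp.G)) := AlgGroup.reg_val _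
    exact ((a2.comp a1).inv.mul reg_snd).mul (D.phi_reg.comp (a2.comp a1))
  have st₂ : ∀ h, ∀ F ∈ A0, F ∘ α₂ h ∈ A0 := by
    intro l F hF
    obtain ⟨h, h'⟩ := (memA0 F).1 hF
    have hl : l.1 ∈ D.mu.levi := l.2
    refine (memA0 _).2 ⟨?_, fun u hu v hv g => ?_⟩
    · exact (((reg_const (l.1⁻¹)).mul reg_id).mul (reg_const (D.phi l.1)) :
        Reg D.Gp.O D.Gp.O (fun g => l.1⁻¹ * g * D.phi l.1)) F h
    · change F (l.1⁻¹ * (u⁻¹ * g * v) * D.phi l.1) = F (l.1⁻¹ * g * D.phi l.1)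
      have hl' : l.1⁻¹ ∈ D.mu.inv.levi := by
        rw [Cochar.levi_inv]
        exact Subgroup.inv_mem _ hl
      have hl'' : (D.phi l.1)⁻¹ ∈ D.mu'.levi := Subgroup.inv_mem _ (D.phi_levi hp hl)
      have e : l.1⁻¹ * (u⁻¹ * g * v) * D.phi l.1 = (l.1⁻¹ * u * l.1⁻¹⁻¹)⁻¹ *
          (l.1⁻¹ * g * D.phi l.1) * ((D.phi l.1)⁻¹ * v * (D.phi l.1)⁻¹⁻¹) := by
        simp [mul_assoc]
      rw [e]
      exact h' _ (Cochar.conj_unip hl' hu) _ (Cochar.conj_unip hl'' hv) _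
  have f₂ := fg_invFns hGr (hLe _ D.mu D.red) (ν.sub D.mu.levi D.mu.levi_closed hν) α₂
    (fun x => by
      change ((1 : D.Gp.G))⁻¹ * x * D.phi 1 = x
      simp) (fun h h' x => by
      change (h.1 * h'.1)⁻¹ * x * D.phi (h.1 * h'.1) =
        h'.1⁻¹ * (h.1⁻¹ * x * D.phi h.1) * D.phi h'.1
      simp [mul_assoc]) r₂ A0 (fun F hF => hF.1) st₂ f₁
  -- comparison
  have key : invFns α₂ A0 (ν.sub D.mu.levi D.mu.levi_closed hν).unip = D.R1 ν := by
    apply Subalgebra.ext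
    intro F
    constructor
    · rintro ⟨hF, hF'⟩
      obtain ⟨h, h'⟩ := (memA0 F).1 hF
      refine ⟨h, ?_⟩
      rintro x y hx ⟨l, hl, hl'⟩ g
      have hlP : D.mu.inv.Lim x l := hl
      have hlQ : D.mu'.Lim y (D.phi l) := hl'
      have hlL : l ∈ D.mu.levi := by
        have := hlP.mem_levi
        rwa [Cochar.levi_inv] at this
      have hν' : ∀ s, ν.hom s ∈ D.mu.inv.levi := by
        intro s
        rw [Cochar.levi_inv]
        exact hν s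
      have hlU : l ∈ ν.unip := Cochar.Lim.comm_unip hν' hlP hx
      have hu : x * l⁻¹ ∈ D.mu.inv.unip := hlP.div_mem
      have hv : (D.phi l)⁻¹ * y ∈ D.mu'.unip := hlQ.div_mem'
      have h1 : F ∘ α₂ ⟨l, hlL⟩ = F := hF' ⟨l, hlL⟩ (Cochar.mem_unip_sub.2 hlU)
      have h2 : ∀ g, F (l⁻¹ * g * D.phi l) = F g := fun g => congrFun h1 g
      have e1 : x * g * y⁻¹ = ((x * l⁻¹)⁻¹)⁻¹ * (l * g * y⁻¹) * 1 := by simp [mul_assoc]
      rw [e1, h' _ (Subgroup.inv_mem _ hu) 1 (Subgroup.one_mem _), ← h2 (l * g * y⁻¹)]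
      have e2 : l⁻¹ * (l * g * y⁻¹) * D.phi l = (1 : D.Gp.G)⁻¹ * g * ((D.phi l)⁻¹ * y)⁻¹ := by
        simp [mul_assoc]
      rw [e2]
      exact h' _ (Subgroup.one_mem _) _ (Subgroup.inv_mem _ hv) g
    · rintro ⟨h, h'⟩
      have hA : F ∈ A0 := by
        refine (memA0 F).2 ⟨h, fun u hu v hv g => ?_⟩
        have e1 : D.E u⁻¹ 1 := by
          refine ⟨1, ?_, ?_⟩
          · exact Subgroup.inv_mem _ hu
          · rw [map_one]
            exact Cochar.lim_one (ν := D.mu')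
        have e2 : D.E 1 v⁻¹ := by
          refine ⟨1, Cochar.lim_one (ν := D.mu.inv), ?_⟩
          rw [map_one]
          exact Subgroup.inv_mem _ hv
        have h1 := h' u⁻¹ 1 (hU (Subgroup.inv_mem _ hu)) e1 (g * v)
        have h2 := h' 1 v⁻¹ (Subgroup.one_mem _) e2 g
        simp only [inv_one, mul_one, one_mul, inv_inv] at h1 h2
        rw [← h2, ← h1, mul_assoc]
      refine ⟨hA, ?_⟩
      rintro ⟨l, hlL⟩ hl
      have hlU : l ∈ ν.unip := Cochar.mem_unip_sub.1 hl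
      ext g
      change F (l⁻¹ * g * D.phi l) = F g
      have hlL' : l⁻¹ ∈ D.mu.levi := Subgroup.inv_mem _ hlL
      have e : D.E l⁻¹ (D.phi l⁻¹) := by
        refine ⟨l⁻¹, ?_, ?_⟩
        · refine Cochar.lim_levi (ν := D.mu.inv) ?_
          rw [Cochar.levi_inv]
          exact hlL'
        · exact Cochar.lim_levi (ν := D.mu') (D.phi_levi hp hlL')
      have := h' l⁻¹ (D.phi l⁻¹) (Subgroup.inv_mem _ hlU) e g
      rwa [map_inv, inv_inv] at this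
  rw [← key]
  exact f₂

end ZipDatum

end Pool.Agent.Q173.GZ
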