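import Pool.Agent.Q173.GZ.Defs

/-!
# The ring of automorphic forms on the stack of `G`-zips: definition
-/

set_option autoImplicit false

namespace Pool.Agent.Q173.GZ

/-- A cocharacter datum with a Borel pair: `G` is a connected reductive group, `φ : G → G` an
endomorphism (the Frobenius), `μ` a cocharacter, `μ' = μ^{(p)}` the cocharacter with
`μ'(t^p) = φ(μ(t))`; `T ≤ B` is a Borel pair with `B ≤ P = P_-(μ)` and `T ≤ L = Cent(μ)`. -/
structure ZipDatum (k : Type) [Field k] (p : ℕ) where
  /-- the group -/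
  Gp : AlgGroup k
  red : Gp.Reductive
  /-- the Frobenius endomorphism -/
  phi : Gp.G →* Gp.G
  phi_reg : Reg Gp.O Gp.O phi
  /-- the cocharacter `μ` -/
  mu : Cochar Gp
  /-- the cocharacter `μ^{(p)}` -/
  mu' : Cochar Gp
  frob : ∀ t : kˣ, mu'.hom (t ^ p) = phi (mu.hom t)
  /-- the Borel subgroup -/
  B : Subgroup Gp.G
  /-- the maximal torus -/
  T : Subgroup Gp.G
  borel : Gp.Borel B
  torus : Gp.MaxTorus T
  T_le_B : T ≤ B
  T_le_L : T ≤ mu.levi
  B_le_P : B ≤ mu.inv.para

namespace ZipDatum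

variable {k : Type} [Field k] {p : ℕ} (D : ZipDatum k p)

/-- The parabolic subgroup `P = P_-(μ)`. -/
def P : Subgroup D.Gp.G := D.mu.inv.para

/-- The parabolic subgroup `Q = P_+(μ)^{(p)} = P_+(μ^{(p)})`. -/
def Q : Subgroup D.Gp.G := D.mu'.para

/-- The zip group `E`: the pairs `(x, y) ∈ P × Q` with `φ(θ(x)) = θ(y)`; the Levi projections are
`θ(x) = lim μ(t)⁻¹ x μ(t)` and `θ(y) = lim μ'(t) y μ'(t)⁻¹`. -/
def E (x y : D.Gp.G) : Prop := ∃ l, D.mu.inv.Lim x l ∧ D.mu'.Lim y (D.phi l)

/-- The pairs `(g, x)` with `g ∈ G`, `x ∈ P`. -/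
@[reducible] def Pts : Type := D.Gp.G × El D.P

/-- The regular functions on `G × P`. -/
@[reducible] def O2 : Subalgebra k (D.Pts → k) := box D.Gp.O (D.Gp.res D.P)

/-- An element of `B` as an element of `P`. -/
@[reducible] def toP (b : El D.B) : El D.P := ⟨b.1, D.B_le_P b.2⟩

/-- The characters `X^*(B) = X^*(T)`. -/
@[reducible] def Chr : Type := El (D.Gp.chars D.B)

/-- The group of characters (the instance of Mathlib, under a short name). -/
@[reducible, instance 5000] def chrGroup : Group D.Chr := elGroup _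

/-- The algebra of functions on `G × P` (instance of Mathlib, short name). -/
@[reducible] def Fns : Type := D.Pts → k

/-- The global sections of the vector bundle attached to `V_I(λ) = ind_B^P(λ)` on the stack
`G-Zip^μ = [E \ G]`, `λ` a character of `B` (that is, of `T`): the regular functions `F(g, x)` on
`G × P` such that `F(g, -)` is in `V_I(λ)` (`F(g, x b) = λ(b)⁻¹ F(g, x)`), and which are equivariant:
`F(x g y⁻¹, x z) = F(g, z)` for all `(x, y) ∈ E`. -/
def IsSection (χ : D.Chr) (F : D.Pts → k) : Prop :=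
  F ∈ D.O2 ∧
  (∀ (g : D.Gp.G) (x : El D.P) (b : El D.B), F (g, x * D.toP b) = ((χ.1 b)⁻¹ : kˣ) * F (g, x)) ∧
  ∀ (x : El D.P) (y g : D.Gp.G) (z : El D.P), D.E x.1 y → F (x.1 * g * y⁻¹, x * z) = F (g, z)

variable {D}

lemma IsSection.zero (χ : D.Chr) : D.IsSection χ 0 :=
  ⟨Subalgebra.zero_mem _, fun _ _ _ => (mul_zero _).symm, fun _ _ _ _ _ => rfl⟩

lemma IsSection.add {χ : D.Chr} {F F' : D.Pts → k} (h : D.IsSection χ F)
    (h' : D.IsSection χ F') : D.IsSection χ (F + F') := by
  refine ⟨Subalgebra.add_mem _ h.1 h'.1, fun g x b => ?_, fun x y g z e => ?_⟩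
  · rw [Pi.add_apply, Pi.add_apply, h.2.1, h'.2.1, mul_add]
  · rw [Pi.add_apply, Pi.add_apply, h.2.2 x y g z e, h'.2.2 x y g z e]

lemma IsSection.mul {χ χ' : D.Chr} {F F' : D.Pts → k} (h : D.IsSection χ F)
    (h' : D.IsSection χ' F') : D.IsSection (χ * χ') (F * F') := by
  refine ⟨Subalgebra.mul_mem _ h.1 h'.1, fun g x b => ?_, fun x y g z e => ?_⟩
  · rw [Pi.mul_apply, Pi.mul_apply, h.2.1, h'.2.1]
    have : (((χ * χ').1 b)⁻¹ : kˣ) = (χ.1 b)⁻¹ * (χ'.1 b)⁻¹ := by
      change ((χ.1 b * χ'.1 b)⁻¹ : kˣ) = _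
      rw [mul_inv]
    rw [this, Units.val_mul]
    ring
  · rw [Pi.mul_apply, Pi.mul_apply, h.2.2 x y g z e, h'.2.2 x y g z e]

lemma IsSection.const (c : k) : D.IsSection 1 (algebraMap k (D.Pts → k) c) := by
  refine ⟨Subalgebra.algebraMap_mem _ c, fun g x b => ?_, fun x y g z e => rfl⟩
  have : (((1 : D.Chr).1 b)⁻¹ : kˣ) = 1 := by
    change ((1 : kˣ))⁻¹ = 1
    exact inv_one
  rw [this, Units.val_one, one_mul]
  rfl

lemma IsSection.sum {χ : D.Chr} {ι : Type} (s : Finset ι) (F : ι → D.Pts → k)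
    (h : ∀ i ∈ s, D.IsSection χ (F i)) : D.IsSection χ (∑ i ∈ s, F i) := by
  classical
  induction s using Finset.induction_on with
  | empty => exact IsSection.zero χ
  | insert a s ha ih =>
    rw [Finset.sum_insert ha]
    exact (h a (Finset.mem_insert_self a s)).add
      (ih fun i hi => h i (Finset.mem_insert_of_mem hi))

variable (D)

/-- The algebra of formal finite sums `∑ F_λ [λ]` of functions `F_λ` on `G × P`. -/
@[reducible] def Amb : Type := MonoidAlgebra (D.Pts → k) D.Chr

/-- Ring structure (the instance of Mathlib, under a short name). -/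
@[reducible, instance 5000] noncomputable def ambRing : Semiring D.Amb := MonoidAlgebra.semiring

/-- Algebra structure (the instance of Mathlib, under a short name). -/
@[reducible, instance 5000] noncomputable def ambAlgebra : Algebra k D.Amb :=
  MonoidAlgebra.algebra

/-- The coefficient of `λ`. -/
@[reducible] def cf (r : D.Amb) (χ : D.Chr) : D.Pts → k := r.coeff χ

/-- The ring of automorphic forms `R_zip = ⊕_λ H^0(G-Zip^μ, V_I(λ))`, as a subalgebra of the algebra of
formal finite sums `∑ F_λ [λ]` of functions `F_λ` on `G × P`. -/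
def Rzip : Subalgebra k D.Amb where
  carrier := {r | ∀ χ, D.IsSection χ (D.cf r χ)}
  add_mem' := fun ha hb χ => (ha χ).add (hb χ)
  mul_mem' := by
    classical
    intro a b ha hb χ
    change D.IsSection χ ((a * b).coeff χ)
    rw [MonoidAlgebra.coeff_mul]
    refine IsSection.sum _ _ fun i _ => IsSection.sum _ _ fun j _ => ?_
    change D.IsSection χ (if i * j = χ then a.coeff i * b.coeff j else 0)
    split_ifs with h
    · rw [← h]
      exact (ha i).mul (hb j)
    · exact IsSection.zero χ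
  algebraMap_mem' := by
    classical
    intro c χ
    change D.IsSection χ ((algebraMap k D.Amb c).coeff χ)
    rw [MonoidAlgebra.coe_algebraMap, Function.comp_apply, MonoidAlgebra.coeff_single,
      Finsupp.single_apply]
    split_ifs with h
    · rw [← h]
      exact IsSection.const c
    · exact IsSection.zero χ

end ZipDatum

end Pool.Agent.Q173.GZ
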